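import Mathlib
import Pool.Agent.Q35Kron

/-!
# MP_68ef1b_nt, Q1: disproof

`B(5 · 7 · 13²) = 12822`, which is not a multiple of `5`.  All `2 ^ 12` products of distinct
cyclotomic polynomials `Φ_d`, `d ∣ 5915`, are bounded by Kronecker substitution at `2 ^ 40`.
-/

namespace Pool.Agent.Q35.DivHeight

open Polynomial Finset Pool.Agent.Q35.Kron

/-- The height of an integer polynomial: the largest absolute value of a coefficient. -/
def height (f : ℤ[X]) : ℕ := f.support.sup fun i => (f.coeff i).natAbs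

/-- `B n`: the largest height of a divisor of `X ^ n - 1` in `ℤ[X]`. -/
noncomputable def B (n : ℕ) : ℕ := sSup {h : ℕ | ∃ f : ℤ[X], f ∣ X ^ n - 1 ∧ height f = h}

lemma le_height (f : ℤ[X]) (i : ℕ) : (f.coeff i).natAbs ≤ height f := by
  by_cases h : i ∈ f.support
  · exact Finset.le_sup (f := fun i => (f.coeff i).natAbs) h
  · rw [notMem_support_iff] at h
    simp [h]

lemma height_le {f : ℤ[X]} {K : ℕ} (h : Bd f K) : height f ≤ K := by
  apply Finset.sup_le
  intro i _
  have := h i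
  rw [Int.abs_eq_natAbs] at this
  exact_mod_cast this

/-! ### Divisors of a product of primes -/

lemma dvd_prod_primes {ι : Type*} [DecidableEq ι] (P : ι → ℤ[X]) (s : Finset ι)
    (hP : ∀ i ∈ s, Prime (P i)) : ∀ f : ℤ[X], f ∣ ∏ i ∈ s, P i →
    ∃ t ⊆ s, Associated f (∏ i ∈ t, P i) := by
  induction s using Finset.induction_on with
  | empty =>
    intro f hf
    refine ⟨∅, subset_rfl, ?_⟩
    rw [prod_empty] at hf ⊢
    exact associated_one_iff_isUnit.mpr (isUnit_of_dvd_one hf)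
  | insert a s ha ih =>
    intro f hf
    have hPa : Prime (P a) := hP a (mem_insert_self _ _)
    have ih' := ih (fun i hi => hP i (mem_insert_of_mem hi))
    rw [prod_insert ha] at hf
    by_cases hd : P a ∣ f
    · obtain ⟨g, rfl⟩ := hd
      have h1 : g ∣ ∏ i ∈ s, P i := (mul_dvd_mul_iff_left hPa.ne_zero).mp hf
      obtain ⟨t, ht, h2⟩ := ih' g h1
      refine ⟨insert a t, insert_subset_insert _ ht, ?_⟩
      rw [prod_insert (fun h => ha (ht h))]
      exact h2.mul_left _
    · obtain ⟨k, hk⟩ := hf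
      have h1 : P a ∣ f * k := ⟨_, hk.symm⟩
      rcases hPa.dvd_or_dvd h1 with h | ⟨k', rfl⟩
      · exact absurd h hd
      · have h2 : f ∣ ∏ i ∈ s, P i := by
          refine ⟨k', mul_left_cancel₀ hPa.ne_zero ?_⟩
          rw [hk]; ring
        obtain ⟨t, ht, h3⟩ := ih' f h2
        exact ⟨t, ht.trans (subset_insert _ _), h3⟩

lemma Bd.of_associated {f g : ℤ[X]} {K : ℕ} (h : Associated f g) (hg : Bd g K) : Bd f K := by
  obtain ⟨u, rfl⟩ := h.symm
  obtain ⟨r, hr, hu⟩ := Polynomial.isUnit_iff.mp u.isUnit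
  rcases Int.isUnit_iff.mp hr with rfl | rfl
  · rw [← hu]; simpa using hg
  · rw [← hu]
    intro i
    have := hg i
    simpa using this

/-! ### Cyclotomic identities -/

lemma exp_bin (k s : ℕ) : expand ℤ k (X ^ s - 1) = X ^ (s * k) - 1 := by
  rw [map_sub, map_one, map_pow, expand_X, ← pow_mul, mul_comm k]

lemma I1 (p q : ℕ) (hp : p.Prime) (hq : q.Prime) (hpq : p ≠ q) :
    (X ^ q - 1) * cyclotomic (p * q) ℤ * (X ^ p - 1) = (X ^ (p * q) - 1) * (X ^ 1 - 1) := by
  have : Fact p.Prime := ⟨hp⟩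
  have h1 : cyclotomic p ℤ * (X - 1) = X ^ p - 1 := cyclotomic_prime_mul_X_sub_one ℤ p
  have h2 : expand ℤ q (cyclotomic p ℤ) = cyclotomic (p * q) ℤ * cyclotomic p ℤ :=
    cyclotomic_expand_eq_cyclotomic_mul hq
      (fun h => hpq ((Nat.prime_dvd_prime_iff_eq hq hp).mp h).symm) ℤ
  have h3 := congrArg (expand ℤ q) h1
  rw [map_mul, h2, map_sub, map_one, expand_X, exp_bin] at h3
  rw [pow_one]
  linear_combination (X - 1) * h3 - (X ^ q - 1) * cyclotomic (p * q) ℤ * h1

lemma I2 (p q r : ℕ) (hp : p.Prime) (hq : q.Prime) (hpq : p ≠ q) (hr : r.Prime) (hrp : r ∣ p * q) :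
    (X ^ (q * r) - 1) * cyclotomic (p * q * r) ℤ * (X ^ (p * r) - 1)
      = (X ^ (p * q * r) - 1) * (X ^ r - 1) := by
  have h := congrArg (expand ℤ r) (I1 p q hp hq hpq)
  rw [map_mul, map_mul, map_mul, exp_bin, exp_bin, exp_bin, exp_bin,
    cyclotomic_expand_eq_cyclotomic hr hrp, one_mul] at h
  exact h

lemma I3 (p q r : ℕ) (hp : p.Prime) (hq : q.Prime) (hpq : p ≠ q) (hr : r.Prime)
    (hrp : ¬ r ∣ p * q) :
    cyclotomic (p * q * r) ℤ * (X ^ (p * q) - 1) * (X ^ (q * r) - 1) * (X ^ (p * r) - 1)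
        * (X ^ 1 - 1)
      = (X ^ (p * q * r) - 1) * (X ^ p - 1) * (X ^ q - 1) * (X ^ r - 1) := by
  have h0 := I1 p q hp hq hpq
  have h := congrArg (expand ℤ r) h0
  rw [map_mul, map_mul, map_mul, exp_bin, exp_bin, exp_bin, exp_bin,
    cyclotomic_expand_eq_cyclotomic_mul hr hrp, one_mul] at h
  linear_combination (X ^ p - 1) * (X ^ q - 1) * h
    - (X ^ (q * r) - 1) * cyclotomic (p * q * r) ℤ * (X ^ (p * r) - 1) * h0

lemma I4 (p q r s : ℕ) (hp : p.Prime) (hq : q.Prime) (hpq : p ≠ q) (hr : r.Prime)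
    (hrp : ¬ r ∣ p * q) (hs : s.Prime) (hsr : s ∣ p * q * r) :
    cyclotomic (p * q * r * s) ℤ * (X ^ (p * q * s) - 1) * (X ^ (q * r * s) - 1)
        * (X ^ (p * r * s) - 1) * (X ^ s - 1)
      = (X ^ (p * q * r * s) - 1) * (X ^ (p * s) - 1) * (X ^ (q * s) - 1) * (X ^ (r * s) - 1) := by
  have h := congrArg (expand ℤ s) (I3 p q r hp hq hpq hr hrp)
  simp only [map_mul, exp_bin, one_mul] at h
  rw [cyclotomic_expand_eq_cyclotomic hs hsr] at h
  exact h

lemma I5 (p : ℕ) (hp : p.Prime) : cyclotomic (p * p) ℤ * (X ^ p - 1) = X ^ (p * p) - 1 := by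
  have : Fact p.Prime := ⟨hp⟩
  have h : cyclotomic (p ^ (1 + 1)) ℤ * (X ^ (p ^ 1) - 1) = X ^ (p ^ (1 + 1)) - 1 :=
    cyclotomic_prime_pow_mul_X_pow_sub_one ℤ p 1
  have e : p ^ (1 + 1) = p * p := by ring
  rw [e, pow_one] at h
  exact h

lemma bin_ne_zero (s : ℕ) (hs : 0 < s) : (X ^ s - 1 : ℤ[X]) ≠ 0 := by
  have := X_pow_sub_C_ne_zero (R := ℤ) hs 1
  simpa using this

/-! ### Products of binomials -/

/-- `∏ (X ^ e - 1)` over a list of exponents. -/
noncomputable def bin (l : List ℕ) : ℤ[X] := (l.map fun e => (X ^ e - 1 : ℤ[X])).prod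

/-- `∏ (b ^ e - 1)` over a list of exponents. -/
def binv (b : ℕ) (l : List ℕ) : ℕ := (l.map fun e => b ^ e - 1).prod

lemma bin_append (l m : List ℕ) : bin (l ++ m) = bin l * bin m := by
  unfold bin; rw [List.map_append, List.prod_append]

lemma bin_cons (e : ℕ) (l : List ℕ) : bin (e :: l) = (X ^ e - 1) * bin l := by
  unfold bin; rw [List.map_cons, List.prod_cons]

lemma Bd_mul_bin (l : List ℕ) : ∀ (P : ℤ[X]) (m : ℕ), Bd P m →
    Bd (P * bin l) (2 ^ l.length * m) := by
  induction l with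
  | nil => intro P m h; simpa [bin] using h
  | cons e l ih =>
    intro P m h
    have e1 : P * bin (e :: l) = P * (X ^ e - 1) * bin l := by rw [bin_cons, mul_assoc]
    have e2 : 2 ^ (e :: l).length * m = 2 ^ l.length * (2 * m) := by
      rw [List.length_cons, pow_succ]; ring
    rw [e1, e2]
    exact ih _ _ (h.mul_X_pow_sub_one e)

lemma bin_ne (l : List ℕ) (h : ∀ e ∈ l, 0 < e) : bin l ≠ 0 := by
  induction l with
  | nil => simp [bin]
  | cons e l ih =>
    rw [bin_cons]
    exact mul_ne_zero (bin_ne_zero e (h e (by simp))) (ih (fun x hx => h x (by simp [hx])))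

lemma bin_eval (b : ℕ) (hb : 1 ≤ b) (l : List ℕ) : (bin l).eval (b : ℤ) = (binv b l : ℤ) := by
  induction l with
  | nil => simp [bin, binv]
  | cons e l ih =>
    rw [bin_cons, eval_mul, ih]
    unfold binv
    rw [List.map_cons, List.prod_cons, Nat.cast_mul]
    congr 1
    have : 1 ≤ b ^ e := Nat.one_le_pow _ _ hb
    push_cast [this]
    simp

lemma binv_pos (b : ℕ) (hb : 2 ≤ b) (l : List ℕ) (h : ∀ e ∈ l, 0 < e) : 0 < binv b l := by
  induction l with
  | nil => simp [binv]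
  | cons e l ih =>
    unfold binv
    rw [List.map_cons, List.prod_cons]
    apply Nat.mul_pos
    · have : 1 < b ^ e := Nat.one_lt_pow (by have := h e (by simp); omega) (by omega)
      omega
    · exact ih (fun x hx => h x (by simp [hx]))

/-! ### The data for `n = 5915` -/

/-- `(d, nums, dens)` with `Φ_d * bin dens = bin nums`. -/
def data : List (ℕ × List ℕ × List ℕ) :=
  [(1, [1], []), (5, [5], [1]), (7, [7], [1]), (13, [13], [1]), (35, [35, 1], [5, 7]),
   (65, [65, 1], [5, 13]), (91, [91, 1], [7, 13]), (169, [169], [13]),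
   (455, [455, 5, 7, 13], [35, 65, 91, 1]), (845, [845, 13], [65, 169]),
   (1183, [1183, 13], [91, 169]), (5915, [5915, 65, 91, 169], [455, 845, 1183, 13])]

section generic

variable (p q r s : ℕ)

lemma J0 : cyclotomic 1 ℤ * bin [] = bin [1] := by
  simp [bin]

lemma J1 (hp : p.Prime) : cyclotomic p ℤ * bin [1] = bin [p] := by
  have : Fact p.Prime := ⟨hp⟩
  have h := cyclotomic_prime_mul_X_sub_one ℤ p
  simp only [bin, List.map_cons, List.map_nil, List.prod_cons, List.prod_nil, mul_one, pow_one]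
  exact h

lemma J2 (hp : p.Prime) : cyclotomic (p * p) ℤ * bin [p] = bin [p * p] := by
  have h := I5 p hp
  simp only [bin, List.map_cons, List.map_nil, List.prod_cons, List.prod_nil, mul_one]
  exact h

lemma J3 (hp : p.Prime) (hq : q.Prime) (hpq : p ≠ q) :
    cyclotomic (p * q) ℤ * bin [p, q] = bin [p * q, 1] := by
  have h := I1 p q hp hq hpq
  simp only [bin, List.map_cons, List.map_nil, List.prod_cons, List.prod_nil, mul_one]
  linear_combination h

lemma J4 (hp : p.Prime) (hq : q.Prime) (hpq : p ≠ q) (hr : r.Prime) (hrp : r ∣ p * q) :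
    cyclotomic (p * q * r) ℤ * bin [p * r, q * r] = bin [p * q * r, r] := by
  have h := I2 p q r hp hq hpq hr hrp
  simp only [bin, List.map_cons, List.map_nil, List.prod_cons, List.prod_nil, mul_one]
  linear_combination h

lemma J5 (hp : p.Prime) (hq : q.Prime) (hpq : p ≠ q) (hr : r.Prime)
    (hrp : ¬ r ∣ p * q) :
    cyclotomic (p * q * r) ℤ * bin [p * q, p * r, q * r, 1] = bin [p * q * r, p, q, r] := by
  have h := I3 p q r hp hq hpq hr hrp
  simp only [bin, List.map_cons, List.map_nil, List.prod_cons, List.prod_nil, mul_one]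
  linear_combination h

lemma J6 (hp : p.Prime) (hq : q.Prime) (hpq : p ≠ q) (hr : r.Prime)
    (hrp : ¬ r ∣ p * q) (hs : s.Prime) (hsr : s ∣ p * q * r) :
    cyclotomic (p * q * r * s) ℤ * bin [p * q * s, p * r * s, q * r * s, s]
      = bin [p * q * r * s, p * s, q * s, r * s] := by
  have h := I4 p q r s hp hq hpq hr hrp hs hsr
  simp only [bin, List.map_cons, List.map_nil, List.prod_cons, List.prod_nil, mul_one]
  linear_combination h

end generic

lemma data_spec : ∀ x ∈ data, cyclotomic x.1 ℤ * bin x.2.2 = bin x.2.1 ∧ ∀ e ∈ x.2.2, 0 < e := by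
  have P5 : Nat.Prime 5 := by norm_num
  have P7 : Nat.Prime 7 := by norm_num
  have P13 : Nat.Prime 13 := by norm_num
  intro x hx
  simp only [data, List.mem_cons, List.not_mem_nil, or_false] at hx
  rcases hx with rfl | rfl | rfl | rfl | rfl | rfl | rfl | rfl | rfl | rfl | rfl | rfl
  all_goals refine ⟨?_, by decide⟩
  · exact J0
  · exact J1 5 P5
  · exact J1 7 P7
  · exact J1 13 P13
  · exact J3 5 7 P5 P7 (by norm_num)
  · exact J3 5 13 P5 P13 (by norm_num)
  · exact J3 7 13 P7 P13 (by norm_num)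
  · have h := J2 13 P13
    rw [show 13 * 13 = 169 from rfl] at h
    exact h
  · exact J5 5 7 13 P5 P7 (by norm_num) P13 (by norm_num)
  · exact J4 5 13 13 P5 P13 (by norm_num) P13 (by norm_num)
  · exact J4 7 13 13 P7 P13 (by norm_num) P13 (by norm_num)
  · have h := J6 5 7 13 13 P5 P7 (by norm_num) P13 (by norm_num) P13 (by norm_num)
    rw [show 5 * 7 * 13 * 13 = 5915 by norm_num, show 5 * 7 * 13 = 455 by norm_num,
      show 5 * 13 * 13 = 845 by norm_num, show 7 * 13 * 13 = 1183 by norm_num,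
      show 5 * 13 = 65 by norm_num, show 7 * 13 = 91 by norm_num,
      show 13 * 13 = 169 by norm_num] at h
    dsimp only
    exact h

/-- The value of `Φ_d` at `b`. -/
def val (b : ℕ) (x : ℕ × List ℕ × List ℕ) : ℕ := binv b x.2.1 / binv b x.2.2

/-- Product of the cyclotomic polynomials of a list. -/
noncomputable def cyc (S : List (ℕ × List ℕ × List ℕ)) : ℤ[X] :=
  (S.map fun x => cyclotomic x.1 ℤ).prod

/-- All numerators. -/
def nums (S : List (ℕ × List ℕ × List ℕ)) : List ℕ := (S.map fun x => x.2.1).flatten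
/-- All denominators. -/
def dens (S : List (ℕ × List ℕ × List ℕ)) : List ℕ := (S.map fun x => x.2.2).flatten

lemma cyc_mul (S : List (ℕ × List ℕ × List ℕ)) (h : ∀ x ∈ S, x ∈ data) :
    cyc S * bin (dens S) = bin (nums S) := by
  induction S with
  | nil => simp [cyc, dens, nums, bin]
  | cons x S ih =>
    have h1 := ih (fun y hy => h y (by simp [hy]))
    have h2 := (data_spec x (h x (by simp))).1
    unfold cyc dens nums at *
    simp only [List.map_cons, List.prod_cons, List.flatten_cons, bin_append]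
    rw [← h1, ← h2]; ring

lemma cyc_eval (b : ℕ) (hb : 2 ≤ b) (S : List (ℕ × List ℕ × List ℕ)) (h : ∀ x ∈ S, x ∈ data) :
    (cyc S).eval (b : ℤ) = (((S.map (val b)).prod : ℕ) : ℤ) := by
  induction S with
  | nil => simp [cyc]
  | cons x S ih =>
    have h1 := ih (fun y hy => h y (by simp [hy]))
    obtain ⟨h2, h3⟩ := data_spec x (h x (by simp))
    unfold cyc at *
    simp only [List.map_cons, List.prod_cons, eval_mul, Nat.cast_mul]
    rw [h1]
    congr 1
    have h4 := congrArg (eval (b : ℤ)) h2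
    rw [eval_mul, bin_eval b (by omega), bin_eval b (by omega)] at h4
    have h5 : (0 : ℤ) < binv b x.2.2 := by exact_mod_cast binv_pos b hb _ h3
    unfold val
    push_cast
    rw [← h4, Int.mul_ediv_cancel _ h5.ne']

/-- `1 + b + ⋯ + b ^ (L-1)`. -/
def rep (L b : ℕ) : ℕ := (b ^ L - 1) / (b - 1)

lemma rep_eq (L b : ℕ) (hb : 2 ≤ b) : ∑ i ∈ range L, b ^ i = rep L b := by
  unfold rep
  exact Nat.geomSum_eq hb L

/-- The conditions to be checked for a single value `T`. -/
def leaf (M w t L T : ℕ) : Bool :=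
  Nat.beq (Nat.land (T + M * rep L (2 ^ w)) ((2 ^ w - 2 ^ t) * rep L (2 ^ w))) 0 &&
  Nat.beq (Nat.land (M * rep L (2 ^ w) - T) ((2 ^ w - 2 ^ t) * rep L (2 ^ w))) 0 &&
  Nat.ble T (M * rep L (2 ^ w)) &&
  Nat.ble (T + M * rep L (2 ^ w) + 1) (2 ^ (w * L))

/-- Check of all sub-products. -/
def chk {α : Type} (lf : ℕ → Bool) (v : α → ℕ) (l : List α) : ℕ → Bool :=
  List.rec (motive := fun _ => ℕ → Bool) lf (fun x _ ih T => ih T && ih (T * v x)) l

lemma chk_spec {α : Type} (lf : ℕ → Bool) (v : α → ℕ) (l : List α) :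
    ∀ T, chk lf v l T = true → ∀ S : List α, S.Sublist l →
      lf (T * (S.map v).prod) = true := by
  induction l with
  | nil =>
    intro T h S hS
    rw [List.sublist_nil] at hS
    subst hS
    have h' : lf T = true := h
    simpa using h'
  | cons x l ih =>
    intro T h S hS
    have h' : (chk lf v l T && chk lf v l (T * v x)) = true := h
    rw [Bool.and_eq_true] at h'
    rcases List.sublist_cons_iff.mp hS with h1 | ⟨S', rfl, h1⟩
    · exact ih T h'.1 S h1
    · have := ih _ h'.2 S' h1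
      rw [List.map_cons, List.prod_cons, ← mul_assoc]
      exact this

set_option maxRecDepth 100000 in
theorem chk_data : chk (leaf 12822 40 15 5916) (val (2 ^ 40)) data 1 = true := by
  decide +kernel

lemma leaf_spec (M w t L T : ℕ) (h : leaf M w t L T = true) :
    Nat.land (T + M * rep L (2 ^ w)) ((2 ^ w - 2 ^ t) * rep L (2 ^ w)) = 0 ∧
    Nat.land (M * rep L (2 ^ w) - T) ((2 ^ w - 2 ^ t) * rep L (2 ^ w)) = 0 ∧
    T ≤ M * rep L (2 ^ w) ∧ T + M * rep L (2 ^ w) + 1 ≤ 2 ^ (w * L) := by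
  unfold leaf at h
  rw [Bool.and_eq_true, Bool.and_eq_true, Bool.and_eq_true] at h
  obtain ⟨⟨⟨h1, h2⟩, h3⟩, h4⟩ := h
  exact ⟨Nat.eq_of_beq_eq_true h1, Nat.eq_of_beq_eq_true h2, Nat.le_of_ble_eq_true h3,
    Nat.le_of_ble_eq_true h4⟩

lemma nums_length (S : List (ℕ × List ℕ × List ℕ)) (hS : S.Sublist data) :
    (nums S).length ≤ 23 := by
  have h1 : (nums S).Sublist (nums data) := (hS.map _).flatten
  exact h1.length_le.trans (by decide)

lemma dens_length (S : List (ℕ × List ℕ × List ℕ)) (hS : S.Sublist data) :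
    (dens S).length ≤ 22 := by
  have h1 : (dens S).Sublist (dens data) := (hS.map _).flatten
  exact h1.length_le.trans (by decide)

/-- Bound for every sub-product. -/
lemma cyc_bound_gen (M w t L : ℕ) (htw : t ≤ w) (hw : 1 ≤ w)
    (hs : 2 ^ 22 * (M + 2 ^ t) + 2 ^ 23 < 2 ^ w)
    (hc : chk (leaf M w t L) (val (2 ^ w)) data 1 = true)
    (S : List (ℕ × List ℕ × List ℕ)) (hS : S.Sublist data) : Bd (cyc S) M := by
  have h := chk_spec _ _ _ 1 hc S hS
  rw [one_mul] at h
  obtain ⟨h1, h2, h3, h4⟩ := leaf_spec _ _ _ _ _ h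
  have hb : 2 ≤ 2 ^ w := by
    calc 2 = 2 ^ 1 := rfl
      _ ≤ 2 ^ w := Nat.pow_le_pow_right (by norm_num) hw
  have hmem : ∀ x ∈ S, x ∈ data := fun x hx => hS.subset hx
  have hev := cyc_eval (2 ^ w) hb S hmem
  refine bound_of_masks w t L M (2 ^ 23) (2 ^ 22) htw (cyc S) (bin (dens S)) (bin (nums S))
    ?_ (cyc_mul S hmem) ((S.map (val (2 ^ w))).prod + M * rep L (2 ^ w))
    (M * rep L (2 ^ w) - (S.map (val (2 ^ w))).prod) (rep L (2 ^ w)) (rep_eq _ _ hb)
    ?_ ?_ h1 h2 (by omega) (by omega) ?_ ?_ hs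
  · apply bin_ne
    intro e he
    unfold dens at he
    rw [List.mem_flatten] at he
    obtain ⟨l, hl, hel⟩ := he
    rw [List.mem_map] at hl
    obtain ⟨x, hx, rfl⟩ := hl
    exact (data_spec x (hmem x hx)).2 e hel
  · rw [hev, Nat.cast_add, Nat.cast_mul]
  · rw [hev, Nat.cast_sub h3, Nat.cast_mul]
  · have h5 := Bd_mul_bin (nums S) 1 1 Bd.one
    rw [one_mul, mul_one] at h5
    exact h5.mono (Nat.pow_le_pow_right (by norm_num) (nums_length S hS))
  · intro P m hP
    have h5 := Bd_mul_bin (dens S) P m hP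
    exact h5.mono (Nat.mul_le_mul_right _ (Nat.pow_le_pow_right (by norm_num)
      (dens_length S hS)))

lemma cyc_bound (S : List (ℕ × List ℕ × List ℕ)) (hS : S.Sublist data) : Bd (cyc S) 12822 :=
  cyc_bound_gen 12822 40 15 5916 (by norm_num) (by norm_num) (by norm_num) chk_data S hS

lemma divs : Nat.divisors 5915 = (data.map fun x => x.1).toFinset := by decide +kernel

lemma prod_eq_cyc (t : Finset ℕ) (ht : t ⊆ Nat.divisors 5915) :
    ∏ d ∈ t, cyclotomic d ℤ = cyc (data.filter fun x => x.1 ∈ t) := by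
  have h1 : t = ((data.map fun x => x.1).filter fun d => d ∈ t).toFinset := by
    ext d
    rw [List.mem_toFinset, List.mem_filter]
    constructor
    · intro hd
      have := ht hd
      rw [divs, List.mem_toFinset] at this
      exact ⟨this, by simpa using hd⟩
    · intro hd
      simpa using hd.2
  have h2 : ((data.map fun x => x.1).filter fun d => d ∈ t).Nodup := by
    apply List.Nodup.filter
    decide
  calc ∏ d ∈ t, cyclotomic d ℤ
      = ∏ d ∈ ((data.map fun x => x.1).filter fun d => d ∈ t).toFinset, cyclotomic d ℤ := by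
        rw [← h1]
    _ = (((data.map fun x => x.1).filter fun d => d ∈ t).map fun d => cyclotomic d ℤ).prod :=
        List.prod_toFinset _ h2
    _ = _ := by
        unfold cyc
        rw [List.filter_map, List.map_map]
        rfl

lemma divisor_assoc (n : ℕ) (hn : 0 < n) (f : ℤ[X]) (hf : f ∣ X ^ n - 1) :
    ∃ t ⊆ Nat.divisors n, Associated f (∏ d ∈ t, cyclotomic d ℤ) := by
  rw [← prod_cyclotomic_eq_X_pow_sub_one hn ℤ] at hf
  exact dvd_prod_primes (fun d => cyclotomic d ℤ) (Nat.divisors n)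
    (fun d hd => (cyclotomic.irreducible (Nat.pos_of_mem_divisors hd)).prime) f hf

lemma divisor_bound (f : ℤ[X]) (hf : f ∣ X ^ 5915 - 1) : Bd f 12822 := by
  obtain ⟨t, ht, h⟩ := divisor_assoc 5915 (by norm_num) f hf
  apply Bd.of_associated h
  rw [prod_eq_cyc t ht]
  exact cyc_bound _ List.filter_sublist

/-! ### The extremal product -/

/-- Exact value of a coefficient from the digits. -/
theorem coeff_of_masks (w t L M K c : ℕ) (htw : t ≤ w) (H D N : ℤ[X]) (hD0 : D ≠ 0)
    (hHD : H * D = N) (T₁ R : ℕ) (hR : ∑ i ∈ range L, (2 ^ w) ^ i = R)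
    (hT₁ : (T₁ : ℤ) = H.eval ((2 ^ w : ℕ) : ℤ) + M * R)
    (h₁ : T₁ &&& ((2 ^ w - 2 ^ t) * R) = 0)
    (hL₁ : T₁ < 2 ^ (w * L))
    (hN : Bd N K) (hD : ∀ P m, Bd P m → Bd (P * D) (c * m))
    (hs : c * (M + 2 ^ t) + K < 2 ^ w) (i : ℕ) (hi : i < L) :
    H.coeff i = (((T₁ / 2 ^ (w * i)) % 2 ^ w : ℕ) : ℤ) - M := by
  have hm : 2 ^ w - 2 ^ t < 2 ^ w := Nat.sub_lt (by positivity) (by positivity)
  have key : ∀ G : ℤ[X], Bd G (M + 2 ^ t) → G.eval ((2 ^ w : ℕ) : ℤ) = H.eval ((2 ^ w : ℕ) : ℤ) →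
      G = H := by
    intro G hG he
    have hb : Bd (G * D - N) (c * (M + 2 ^ t) + K) := (hD _ _ hG).sub hN
    have h0 : (G * D - N).eval ((2 ^ w : ℕ) : ℤ) = 0 := by
      rw [← hHD, eval_sub, eval_mul, eval_mul, he, sub_self]
    have h1 := eq_zero_of_eval ((2 ^ w : ℕ) : ℤ) _ (by exact_mod_cast hs) _ _ (Nat.lt_succ_self _)
      hb h0
    have h2 : G * D = H * D := by rw [hHD]; exact sub_eq_zero.mp h1
    exact mul_right_cancel₀ hD0 h2
  have d1 : ∀ i < L, (T₁ / 2 ^ (w * i)) % 2 ^ w < 2 ^ t := by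
    intro i hi
    apply small_of_mask w t _ htw (Nat.mod_lt _ (by positivity))
    exact mask_digits w _ hm L T₁ (by rw [hR]; exact h₁) i hi
  have c1 : ∀ i, (dig w T₁ L - C (M : ℤ) * ones L).coeff i
      = if i < L then (((T₁ / 2 ^ (w * i)) % 2 ^ w : ℕ) : ℤ) - M else 0 := by
    intro i
    rw [coeff_sub, coeff_C_mul, coeff_dig, coeff_ones]
    split_ifs <;> simp
  have e1 : dig w T₁ L - C (M : ℤ) * ones L = H := by
    apply key
    · intro i
      rw [c1 i]
      split_ifs with hi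
      · have h5 : (((T₁ / 2 ^ (w * i)) % 2 ^ w : ℕ) : ℤ) < ((2 ^ t : ℕ) : ℤ) := by
          exact_mod_cast d1 i hi
        have h6 : (0 : ℤ) ≤ (((T₁ / 2 ^ (w * i)) % 2 ^ w : ℕ) : ℤ) := by positivity
        rw [Nat.cast_add]
        generalize (((T₁ / 2 ^ (w * i)) % 2 ^ w : ℕ) : ℤ) = z at *
        generalize ((2 ^ t : ℕ) : ℤ) = y at *
        have h7 : (0 : ℤ) ≤ M := by positivity
        rw [abs_le]; constructor <;> linarith
      · rw [abs_zero]; positivity
    · rw [eval_sub, eval_mul, eval_C, eval_dig w T₁ L hL₁, eval_ones, hR, hT₁]; ring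
  have h3 := c1 i
  rw [e1, if_pos hi] at h3
  exact h3

lemma cyc_coeff_gen (M w t L i : ℕ) (htw : t ≤ w) (hw : 1 ≤ w)
    (hs : 2 ^ 22 * (M + 2 ^ t) + 2 ^ 23 < 2 ^ w)
    (hc : chk (leaf M w t L) (val (2 ^ w)) data 1 = true)
    (S : List (ℕ × List ℕ × List ℕ)) (hS : S.Sublist data) (hi : i < L) :
    (cyc S).coeff i = (((((S.map (val (2 ^ w))).prod + M * rep L (2 ^ w)) / 2 ^ (w * i)) % 2 ^ w :
      ℕ) : ℤ) - M := by
  have h := chk_spec _ _ _ 1 hc S hS
  rw [one_mul] at h
  obtain ⟨h1, h2, h3, h4⟩ := leaf_spec _ _ _ _ _ h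
  have hb : 2 ≤ 2 ^ w := by
    calc 2 = 2 ^ 1 := rfl
      _ ≤ 2 ^ w := Nat.pow_le_pow_right (by norm_num) hw
  have hmem : ∀ x ∈ S, x ∈ data := fun x hx => hS.subset hx
  have hev := cyc_eval (2 ^ w) hb S hmem
  refine coeff_of_masks w t L M (2 ^ 23) (2 ^ 22) htw (cyc S) (bin (dens S)) (bin (nums S))
    ?_ (cyc_mul S hmem) ((S.map (val (2 ^ w))).prod + M * rep L (2 ^ w))
    (rep L (2 ^ w)) (rep_eq _ _ hb)
    ?_ h1 (by omega) ?_ ?_ hs i hi
  · apply bin_ne
    intro e he
    unfold dens at he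
    rw [List.mem_flatten] at he
    obtain ⟨l, hl, hel⟩ := he
    rw [List.mem_map] at hl
    obtain ⟨x, hx, rfl⟩ := hl
    exact (data_spec x (hmem x hx)).2 e hel
  · rw [hev, Nat.cast_add, Nat.cast_mul]
  · have h5 := Bd_mul_bin (nums S) 1 1 Bd.one
    rw [one_mul, mul_one] at h5
    exact h5.mono (Nat.pow_le_pow_right (by norm_num) (nums_length S hS))
  · intro P m hP
    have h5 := Bd_mul_bin (dens S) P m hP
    exact h5.mono (Nat.mul_le_mul_right _ (Nat.pow_le_pow_right (by norm_num)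
      (dens_length S hS)))

/-- The extremal set of divisors. -/
def ext : List (ℕ × List ℕ × List ℕ) :=
  data.filter fun x => x.1 ∈ [5, 7, 13, 455, 845, 1183]

theorem ext_digit : (((ext.map (val (2 ^ 40))).prod + 12822 * rep 5916 (2 ^ 40)) / 2 ^ (40 * 597))
    % 2 ^ 40 = 25644 := by
  decide +kernel

lemma ext_coeff : (cyc ext).coeff 597 = 12822 := by
  rw [cyc_coeff_gen 12822 40 15 5916 597 (by norm_num) (by norm_num) (by norm_num) chk_data ext
    List.filter_sublist (by norm_num), ext_digit]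
  norm_num

lemma cyc_dvd (S : List (ℕ × List ℕ × List ℕ)) (hS : S.Sublist data) (n : ℕ) (hn : 0 < n)
    (h : n.divisors = (data.map fun x => x.1).toFinset) : cyc S ∣ X ^ n - 1 := by
  have h1 : cyc data = X ^ n - 1 := by
    rw [← prod_cyclotomic_eq_X_pow_sub_one hn ℤ, h, List.prod_toFinset _ (by decide)]
    unfold cyc
    rw [List.map_map]
    rfl
  rw [← h1]
  unfold cyc
  exact (hS.map _).prod_dvd_prod

lemma height_set_greatest :
    IsGreatest {h : ℕ | ∃ f : ℤ[X], f ∣ X ^ 5915 - 1 ∧ height f = h} 12822 := by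
  constructor
  · refine ⟨cyc ext, cyc_dvd ext List.filter_sublist 5915 (by norm_num) divs, ?_⟩
    apply le_antisymm
    · exact height_le (cyc_bound ext List.filter_sublist)
    · have := le_height (cyc ext) 597
      rw [ext_coeff] at this
      exact this
  · rintro h ⟨f, hf, rfl⟩
    exact height_le (divisor_bound f hf)

end Pool.Agent.Q35.DivHeight

namespace Pool.Agent.Results.MP_68ef1b_nt.NotDivisible

open Polynomial Pool.Agent.Q35.DivHeight

/-- `B(5 · 7 · 13 ^ 2) = 12822` is not a multiple of `5`; so it is not true that `p` divides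
`B(p q r ^ b)` for all primes `p < q < r` and all `b ≥ 2`. -/
theorem result :
    IsGreatest {h : ℕ | ∃ f : ℤ[X], f ∣ X ^ (5 * 7 * 13 ^ 2) - 1 ∧ height f = h} 12822 ∧
    B (5 * 7 * 13 ^ 2) = 12822 ∧
    ¬ ∀ p q r b : ℕ, p.Prime → q.Prime → r.Prime → p < q → q < r → 2 ≤ b →
      p ∣ B (p * q * r ^ b) := by
  have e : 5 * 7 * 13 ^ 2 = 5915 := by norm_num
  have h1 := height_set_greatest
  have h2 : B (5 * 7 * 13 ^ 2) = 12822 := by
    rw [e]
    exact h1.csSup_eq
  refine ⟨by rw [e]; exact h1, h2, ?_⟩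
  intro h
  have h3 := h 5 7 13 2 (by norm_num) (by norm_num) (by norm_num) (by norm_num) (by norm_num)
    le_rfl
  rw [h2] at h3
  norm_num at h3

end Pool.Agent.Results.MP_68ef1b_nt.NotDivisible
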